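import Pool.Agent.W132.Cay.Inv

/-! The trivial lower bound for the second eigenvalue of a random walk. -/

set_option autoImplicit false
set_option linter.all false

namespace Pool.Agent.Y826.CY

open Pool.Agent.W12.Cay Pool.Agent.W132.Cay Finset

theorem lam_lower {W : Type} [Fintype W] [DecidableEq W] [Nonempty W] (G : SimpleGraph W) (lam : ℝ)
    (hlam : lam < 1) (hN : ∀ v, ∃ w, G.Adj v w) (hG : LamLe G lam) :
    1 ≤ lam * ((Fintype.card W : ℝ) - 1) := by
  classical
  let a : W → W → ℝ := fun v w => if G.Adj v w then 1 else 0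
  have ha : ∀ v w, a v w = a w v := fun v w => by
    simp only [a, G.adj_comm v w]
  let dg : W → ℝ := fun v => ∑ w, a v w
  have hdg : ∀ v, 0 < dg v := by
    intro v
    obtain ⟨w, hw⟩ := hN v
    apply Finset.sum_pos'
    · intro i _
      simp only [a]
      split_ifs <;> norm_num
    · exact ⟨w, Finset.mem_univ _, by simp [a, hw]⟩
  have hwalk : ∀ (f : W → ℝ) (v : W), walk G f v = (∑ w, a v w * f w) / dg v := by
    intro f v
    unfold walk
    congr 1
    · refine Finset.sum_congr rfl fun w _ => ?_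
      by_cases h : G.Adj v w
      · rw [if_pos h]; simp [a, h]
      · rw [if_neg h]; simp [a, h]
  let s : W → ℝ := fun v => Real.sqrt (dg v)
  have hs : ∀ v, 0 < s v := fun v => Real.sqrt_pos.mpr (hdg v)
  have hss : ∀ v, s v * s v = dg v := fun v => Real.mul_self_sqrt (hdg v).le
  let M : Matrix W W ℝ := Matrix.of fun v w => a v w / (s v * s w)
  have hM : M.IsHermitian := by
    ext v w
    simp only [M, Matrix.conjTranspose_apply, Matrix.of_apply, star_trivial]
    rw [ha w v, mul_comm (s w)]
  -- eigenfunctions of the walk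
  have heig : ∀ (u : W → ℝ) (μ : ℝ), M.mulVec u = μ • u →
      ∀ v, walk G (fun w => u w / s w) v = μ * (u v / s v) := by
    intro u μ hu v
    have h1 := congrFun hu v
    simp only [Matrix.mulVec, dotProduct, M, Matrix.of_apply, Pi.smul_apply, smul_eq_mul] at h1
    rw [hwalk, div_eq_iff (hdg v).ne', ← hss]
    have h2 : ∑ w, a v w * (u w / s w) = s v * ∑ w, a v w / (s v * s w) * u w := by
      rw [Finset.mul_sum]
      refine Finset.sum_congr rfl fun w _ => ?_
      have := (hs v).ne'
      have := (hs w).ne'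
      field_simp
    rw [h2, h1]
    have := (hs v).ne'
    field_simp
  let B := hM.eigenvectorBasis
  let ev := hM.eigenvalues
  have hBeig : ∀ i, M.mulVec (B i) = ev i • (B i : W → ℝ) := fun i => hM.mulVec_eigenvectorBasis i
  -- the vector s
  have hMs : M.mulVec s = s := by
    funext v
    simp only [Matrix.mulVec, dotProduct, M, Matrix.of_apply]
    have h2 : ∀ w, a v w / (s v * s w) * s w = a v w / s v := by
      intro w
      have := (hs v).ne'
      have := (hs w).ne'
      field_simp
    rw [Finset.sum_congr rfl fun w _ => h2 w, ← Finset.sum_div, div_eq_iff (hs v).ne', hss]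
  have hBne : ∀ i, (B i : W → ℝ) ≠ 0 := by
    intro i h
    have h1 : B i ≠ 0 := B.orthonormal.ne_zero i
    apply h1
    ext v
    exact congrFun h v
  have hinner : ∀ i j, ∑ v, B i v * B j v = if i = j then 1 else 0 := by
    intro i j
    have h1 := (orthonormal_iff_ite.mp B.orthonormal) i j
    rw [← h1, PiLp.inner_apply]
    refine Finset.sum_congr rfl fun v _ => ?_
    simp [mul_comm]
  -- constant eigenfunctions
  have hconst : ∀ i (c : ℝ), (∀ v, B i v / s v = c) → ev i = 1 ∧ c ≠ 0 ∧ ∀ v, B i v = c * s v := by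
    intro i c hc
    have h1 : ∀ v, B i v = c * s v := fun v => (div_eq_iff (hs v).ne').mp (hc v)
    have h2 : (B i : W → ℝ) = c • s := funext h1
    have h3 : M.mulVec (B i) = (B i : W → ℝ) := by
      rw [h2, Matrix.mulVec_smul, hMs]
    rw [hBeig i] at h3
    obtain ⟨v, hv⟩ : ∃ v, B i v ≠ 0 := by
      by_contra hcon
      push Not at hcon
      exact hBne i (funext hcon)
    have h4 := congrFun h3 v
    rw [Pi.smul_apply, smul_eq_mul] at h4
    refine ⟨mul_right_cancel₀ hv (by rw [h4, one_mul]), ?_, h1⟩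
    rintro rfl
    exact hv (by rw [h1, zero_mul])
  have hev : ∀ i, (¬ ∃ c : ℝ, ∀ v, B i v / s v = c) → |ev i| ≤ lam := fun i hi =>
    hG (ev i) _ hi (heig _ _ (hBeig i))
  by_cases hex : ∃ i0, ∃ c : ℝ, ∀ v, B i0 v / s v = c
  · obtain ⟨i0, c, hc⟩ := hex
    obtain ⟨h1, h2, h3⟩ := hconst i0 c hc
    have hothers : ∀ i, i ≠ i0 → |ev i| ≤ lam := by
      intro i hi
      apply hev
      rintro ⟨c', hc'⟩
      obtain ⟨_, h2', h3'⟩ := hconst i c' hc'
      have h4 := hinner i i0
      rw [if_neg hi] at h4
      have h5 : ∑ v, B i v * B i0 v = c' * c * ∑ v, dg v := by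
        rw [Finset.mul_sum]
        refine Finset.sum_congr rfl fun v _ => ?_
        rw [h3, h3', ← hss]
        ring
      rw [h5] at h4
      have h6 : 0 < ∑ v, dg v := Finset.sum_pos (fun v _ => hdg v) Finset.univ_nonempty
      exact mul_ne_zero (mul_ne_zero h2' h2) h6.ne' h4
    have htr : ∑ i, ev i = 0 := by
      have h4 := hM.trace_eq_sum_eigenvalues
      have h5 : M.trace = 0 := by
        rw [Matrix.trace]
        refine Finset.sum_eq_zero fun v _ => ?_
        simp [M, Matrix.diag, a]
      rw [h5] at h4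
      exact_mod_cast h4.symm
    rw [← Finset.add_sum_erase _ _ (Finset.mem_univ i0), h1] at htr
    have h7 : -∑ i ∈ Finset.univ.erase i0, ev i ≤ ∑ i ∈ Finset.univ.erase i0, lam := by
      rw [← Finset.sum_neg_distrib]
      refine Finset.sum_le_sum fun i hi => ?_
      exact (neg_le_abs _).trans (hothers i (Finset.ne_of_mem_erase hi))
    rw [Finset.sum_const, Finset.card_erase_of_mem (Finset.mem_univ _), Finset.card_univ,
      nsmul_eq_mul, Nat.cast_sub (Nat.one_le_iff_ne_zero.mpr Fintype.card_ne_zero)] at h7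
    push_cast at h7
    linarith
  · exfalso
    push Not at hex
    have hzero : ∀ i, ∑ v, B i v * s v = 0 := by
      intro i
      have h1 : |ev i| ≤ lam := hev i (by
        rintro ⟨c, hc⟩
        obtain ⟨v, hv⟩ := hex i c
        exact hv (hc v))
      have h2 : (B i : W → ℝ) ⬝ᵥ (M.mulVec s) = (M.mulVec (B i)) ⬝ᵥ s := by
        have hMt : M.transpose = M := by
          ext v w
          simp only [M, Matrix.transpose_apply, Matrix.of_apply]
          rw [ha w v, mul_comm (s w)]
        rw [Matrix.dotProduct_mulVec]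
        congr 1
        conv_lhs => rw [← hMt]
        rw [Matrix.vecMul_transpose]
      rw [hMs, hBeig i] at h2
      simp only [dotProduct, Pi.smul_apply, smul_eq_mul] at h2
      have h3 : ∑ v, ev i * B i v * s v = ev i * ∑ v, B i v * s v := by
        rw [Finset.mul_sum]
        exact Finset.sum_congr rfl fun v _ => by ring
      rw [h3] at h2
      have h4 : (1 - ev i) * ∑ v, B i v * s v = 0 := by linarith
      refine (mul_eq_zero.mp h4).resolve_left ?_
      have := le_abs_self (ev i)
      intro h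
      linarith
    have h5 : WithLp.toLp 2 s = (0 : EuclideanSpace ℝ W) := by
      apply InnerProductSpace.ext_inner_left_basis (𝕜 := ℝ) B.toBasis
      intro i
      rw [inner_zero_right, OrthonormalBasis.coe_toBasis, PiLp.inner_apply]
      rw [← hzero i]
      refine Finset.sum_congr rfl fun v _ => ?_
      simp [mul_comm]
    obtain ⟨v⟩ := ‹Nonempty W›
    have h6 : s v = 0 := by
      have := congrFun (congrArg WithLp.ofLp h5) v
      simpa using this
    exact (hs v).ne' h6

theorem converse (n : ℕ) (hn : 1 ≤ n) (lam : ℝ) (hlam0 : 0 < lam) (hlam : lam < 1)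
    (Y : Complex2 (Fin n → ZMod 2)) (S : Finset (Fin n → ZMod 2)) (hS : IsCayley Y S)
    (hY : Y.IsLocalSpectralExpander lam) : 1 ≤ lam * ((2 : ℝ) ^ n - 2) := by
  classical
  -- `S` contains a nonzero vector
  have hSne : ∃ x ∈ S, x ≠ 0 := by
    by_contra hcon
    push Not at hcon
    have h1 : AddSubgroup.closure (S : Set (Fin n → ZMod 2)) = ⊥ := by
      rw [AddSubgroup.closure_eq_bot_iff]
      intro x hx
      exact hcon x hx
    rw [hS.2] at h1
    have h2 : (fun _ => 1 : Fin n → ZMod 2) ∈ (⊤ : AddSubgroup (Fin n → ZMod 2)) :=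
      AddSubgroup.mem_top _
    rw [h1, AddSubgroup.mem_bot] at h2
    have h3 := congrFun h2 ⟨0, hn⟩
    simp at h3
  obtain ⟨x, hx, hx0⟩ := hSne
  have hne : Nonempty {v : Fin n → ZMod 2 // Y.graph.Adj 0 v} :=
    ⟨⟨x, (hS.1 0 x).2 (by rwa [zero_add])⟩⟩
  have hcard : ∀ (i : Fintype {v : Fin n → ZMod 2 // Y.graph.Adj 0 v}),
      (@Fintype.card {v : Fin n → ZMod 2 // Y.graph.Adj 0 v} i : ℝ) ≤ (2 : ℝ) ^ n - 1 := by
    intro i
    have h1 : @Fintype.card {v : Fin n → ZMod 2 // Y.graph.Adj 0 v} i ≤
        Fintype.card {v : Fin n → ZMod 2 // v ≠ 0} := by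
      apply Fintype.card_subtype_mono
      intro v hv h
      rw [h] at hv
      exact Y.graph.loopless.irrefl 0 hv
    have h2 : Fintype.card {v : Fin n → ZMod 2 // v ≠ 0} = 2 ^ n - 1 := by
      rw [Fintype.card_subtype_compl, Fintype.card_fun, ZMod.card, Fintype.card_fin]
      simp
    rw [h2] at h1
    have h3 : ((2 ^ n - 1 : ℕ) : ℝ) = (2 : ℝ) ^ n - 1 := by
      rw [Nat.cast_sub (Nat.one_le_two_pow)]
      push_cast
      ring
    rw [← h3]
    exact_mod_cast h1
  have key := lam_lower _ lam hlam (hY.2 0) (hY.1.2 0)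
  refine key.trans ?_
  refine mul_le_mul_of_nonneg_left ?_ hlam0.le
  refine (sub_le_sub_right (hcard _) 1).trans ?_
  linarith

end Pool.Agent.Y826.CY
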