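import Mathlib

/-! The tensor product of a code with a Reed-Solomon code. -/

set_option autoImplicit false

namespace Pool.Agent.Y826.CY

open Module Finset Polynomial

theorem zeros_lt {k : Type} [Field k] [Fintype k] [DecidableEq k] {s : ℕ} (c : Fin s → k)
    (hc : c ≠ 0) :
    ((Finset.univ : Finset k).filter fun y => ∑ i, c i * y ^ (i : ℕ) = 0).card < s := by
  obtain ⟨i0, hi0⟩ : ∃ i, c i ≠ 0 := by
    by_contra h
    push Not at h
    exact hc (funext h)
  let P : k[X] := ∑ i : Fin s, C (c i) * X ^ (i : ℕ)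
  have hcoeff : P.coeff (i0 : ℕ) = c i0 := by
    simp only [P, finsetSum_coeff, coeff_C_mul, coeff_X_pow]
    rw [Finset.sum_eq_single i0]
    · simp
    · intro b _ hb
      rw [if_neg, mul_zero]
      intro h
      exact hb (Fin.ext h.symm)
    · intro h
      exact absurd (Finset.mem_univ _) h
  have hP : P ≠ 0 := by
    intro h
    rw [h, coeff_zero] at hcoeff
    exact hi0 hcoeff.symm
  have hdeg : P.natDegree < s := by
    have h1 : P.degree < s := degree_sum_fin_lt c
    exact (natDegree_lt_iff_degree_lt hP).mpr h1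
  have hsub : ((Finset.univ : Finset k).filter fun y => ∑ i, c i * y ^ (i : ℕ) = 0) ⊆
      P.roots.toFinset := by
    intro y hy
    rw [Finset.mem_filter] at hy
    rw [Multiset.mem_toFinset, mem_roots hP, IsRoot.def]
    simp only [P, eval_finsetSum, eval_mul, eval_C, eval_pow, eval_X]
    exact hy.2
  calc _ ≤ P.roots.toFinset.card := Finset.card_le_card hsub
    _ ≤ Multiset.card P.roots := Multiset.toFinset_card_le _
    _ ≤ P.natDegree := card_roots' _
    _ < s := hdeg

variable {k : Type} [Field k] {X : Type}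

/-- `(f_i) ↦ ((x, y) ↦ ∑ f_i(x) y^i)`. -/
noncomputable def Phi (s : ℕ) (W : Submodule k (X → k)) : (Fin s → W) →ₗ[k] (X × k → k) where
  toFun f := fun z => ∑ i : Fin s, (f i).1 z.1 * z.2 ^ (i : ℕ)
  map_add' f g := by
    funext z
    simp [add_mul, Finset.sum_add_distrib]
  map_smul' a f := by
    funext z
    simp [Finset.mul_sum, mul_assoc]

theorem Phi_apply (s : ℕ) (W : Submodule k (X → k)) (f : Fin s → W) (z : X × k) :
    Phi s W f z = ∑ i : Fin s, (f i).1 z.1 * z.2 ^ (i : ℕ) := rfl

theorem mono_mem (s : ℕ) (W : Submodule k (X → k)) (g : X → k) (hg : g ∈ W) (j : ℕ) (hj : j < s) :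
    (fun z : X × k => g z.1 * z.2 ^ j) ∈ LinearMap.range (Phi s W) := by
  classical
  refine ⟨fun i => if i = ⟨j, hj⟩ then ⟨g, hg⟩ else 0, ?_⟩
  funext z
  rw [Phi_apply, Finset.sum_eq_single ⟨j, hj⟩]
  · simp
  · intro b _ hb
    rw [if_neg hb]
    simp
  · intro h
    exact absurd (Finset.mem_univ _) h

theorem tensor [Fintype k] [Fintype X] (L G : Submodule k (X → k))
    (hLG : ∀ f ∈ L, ∀ g ∈ L, f * g ∈ G)
    (hsep : ∀ x y : X, x ≠ y → ∃ g ∈ G, g x = 0 ∧ g y ≠ 0)
    (hone : ∀ x : X, ∃ g ∈ G, g x ≠ 0) (b : ℝ)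
    (hz : ∀ g ∈ G, g ≠ 0 → (Nat.card {x : X // g x = 0} : ℝ) ≤ b * Fintype.card X)
    (t : ℕ) (ht : 1 ≤ t) (htk : t ≤ Fintype.card k) :
    ∃ L' G' : Submodule k (X × k → k), (∀ f ∈ L', ∀ g ∈ L', f * g ∈ G') ∧
      (∀ x y : X × k, x ≠ y → ∃ g ∈ G', g x = 0 ∧ g y ≠ 0) ∧
      (∀ g ∈ G', g ≠ 0 → (Nat.card {x : X × k // g x = 0} : ℝ) ≤
        (b + 2 * t / Fintype.card k) * Fintype.card (X × k)) ∧
      finrank k L' = t * finrank k L ∧ finrank k G' ≤ 2 * t * finrank k G := by
  classical
  refine ⟨LinearMap.range (Phi t L), LinearMap.range (Phi (2 * t) G), ?_, ?_, ?_, ?_, ?_⟩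
  · rintro _ ⟨f, rfl⟩ _ ⟨g, rfl⟩
    have h1 : Phi t L f * Phi t L g =
        ∑ i : Fin t, ∑ j : Fin t, fun z : X × k => ((f i).1 * (g j).1) z.1 * z.2 ^ ((i : ℕ) + j) := by
      funext z
      rw [Pi.mul_apply, Phi_apply, Phi_apply, Finset.sum_mul_sum, Finset.sum_apply]
      refine Finset.sum_congr rfl fun i _ => ?_
      rw [Finset.sum_apply]
      refine Finset.sum_congr rfl fun j _ => ?_
      rw [Pi.mul_apply, pow_add]
      ring
    rw [h1]
    refine Submodule.sum_mem _ fun i _ => Submodule.sum_mem _ fun j _ => ?_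
    exact mono_mem (2 * t) G _ (hLG _ (f i).2 _ (g j).2) _ (by omega)
  · rintro ⟨x, a⟩ ⟨y, c⟩ hxy
    by_cases hx : x = y
    · subst hx
      have hac : a ≠ c := fun h => hxy (by rw [h])
      obtain ⟨g, hg, hgx⟩ := hone x
      refine ⟨(fun z : X × k => g z.1 * z.2 ^ 1) - a • (fun z : X × k => g z.1 * z.2 ^ 0), ?_, ?_, ?_⟩
      · exact Submodule.sub_mem _ (mono_mem _ _ g hg 1 (by omega))
          (Submodule.smul_mem _ _ (mono_mem _ _ g hg 0 (by omega)))
      · simp [mul_comm]
      · have h1 : g x * c - a * g x ≠ 0 := by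
          rw [mul_comm a, ← mul_sub]
          exact mul_ne_zero hgx (sub_ne_zero.mpr (Ne.symm hac))
        simpa using h1
    · obtain ⟨g, hg, h1, h2⟩ := hsep x y hx
      refine ⟨fun z : X × k => g z.1 * z.2 ^ 0, mono_mem _ _ g hg 0 (by omega), ?_, ?_⟩
      · simp [h1]
      · simpa using h2
  · rintro _ ⟨f, rfl⟩ hne
    obtain ⟨i0, hi0⟩ : ∃ i, f i ≠ 0 := by
      by_contra h
      push Not at h
      exact hne (by rw [show f = 0 from funext h, map_zero])
    have hf0 : (f i0).1 ≠ 0 := fun h => hi0 (Subtype.ext h)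
    have hbz := hz _ (f i0).2 hf0
    have hkpos : (0 : ℝ) < Fintype.card k := by exact_mod_cast Fintype.card_pos
    -- the count
    have h1 : Nat.card {z : X × k // Phi (2 * t) G f z = 0} =
        ∑ x : X, ((Finset.univ : Finset k).filter fun y => Phi (2 * t) G f (x, y) = 0).card := by
      rw [Nat.card_eq_fintype_card, Fintype.card_subtype]
      have h2 : ((Finset.univ : Finset (X × k)).filter fun z => Phi (2 * t) G f z = 0) =
          (Finset.univ : Finset X).biUnion fun x =>
            ((Finset.univ : Finset k).filter fun y => Phi (2 * t) G f (x, y) = 0).image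
              fun y => (x, y) := by
        ext ⟨x, y⟩
        simp
      rw [h2, Finset.card_biUnion]
      · refine Finset.sum_congr rfl fun x _ => ?_
        exact Finset.card_image_of_injective _ (fun y y' h => (Prod.mk.inj h).2)
      · intro x _ x' _ hxx
        rw [Function.onFun, Finset.disjoint_left]
        rintro ⟨u, v⟩ h3 h4
        rw [Finset.mem_image] at h3 h4
        obtain ⟨_, _, h3⟩ := h3
        obtain ⟨_, _, h4⟩ := h4
        exact hxx ((Prod.mk.inj h3).1.trans (Prod.mk.inj h4).1.symm)
    have h2 : ∀ x : X, (((Finset.univ : Finset k).filter fun y => Phi (2 * t) G f (x, y) = 0).card : ℝ)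
        ≤ 2 * t + (if (f i0).1 x = 0 then (Fintype.card k : ℝ) else 0) := by
      intro x
      by_cases hx : (f i0).1 x = 0
      · rw [if_pos hx]
        have h3 : ((Finset.univ : Finset k).filter fun y => Phi (2 * t) G f (x, y) = 0).card ≤
            Fintype.card k := Finset.card_le_univ _
        have h4 : (((Finset.univ : Finset k).filter fun y => Phi (2 * t) G f (x, y) = 0).card : ℝ) ≤
            Fintype.card k := by exact_mod_cast h3
        have h5 : (0 : ℝ) ≤ 2 * t := by positivity
        linarith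
      · rw [if_neg hx, add_zero]
        have h3 := zeros_lt (fun i => (f i).1 x) (fun h => hx (congrFun h i0))
        exact_mod_cast h3.le
    rw [h1]
    push_cast
    calc ∑ x : X, (((Finset.univ : Finset k).filter fun y => Phi (2 * t) G f (x, y) = 0).card : ℝ)
        ≤ ∑ x : X, (2 * (t : ℝ) + (if (f i0).1 x = 0 then (Fintype.card k : ℝ) else 0)) :=
          Finset.sum_le_sum fun x _ => h2 x
      _ = 2 * t * Fintype.card X + Nat.card {x : X // (f i0).1 x = 0} * Fintype.card k := by
          rw [Finset.sum_add_distrib, Finset.sum_const, Finset.card_univ, ← Finset.sum_filter,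
            Finset.sum_const, Nat.card_eq_fintype_card, Fintype.card_subtype, nsmul_eq_mul,
            nsmul_eq_mul]
          ring
      _ ≤ 2 * t * Fintype.card X + (b * Fintype.card X) * Fintype.card k := by
          have := mul_le_mul_of_nonneg_right hbz hkpos.le
          linarith
      _ = (b + 2 * t / Fintype.card k) * Fintype.card (X × k) := by
          rw [Fintype.card_prod]
          push_cast
          field_simp
          ring
  · rw [LinearMap.finrank_range_of_inj]
    · rw [finrank_pi_fintype]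
      simp
    · rw [injective_iff_map_eq_zero]
      intro f hf
      by_contra hf0
      obtain ⟨i0, hi0⟩ : ∃ i, f i ≠ 0 := by
        by_contra h
        push Not at h
        exact hf0 (funext h)
      obtain ⟨x, hx⟩ : ∃ x, (f i0).1 x ≠ 0 := by
        by_contra h
        push Not at h
        exact hi0 (Subtype.ext (funext h))
      have h3 := zeros_lt (fun i => (f i).1 x) (fun h => hx (congrFun h i0))
      rw [Finset.filter_true_of_mem, Finset.card_univ] at h3
      · omega
      · intro y _
        exact congrFun hf (x, y)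
  · refine (LinearMap.finrank_range_le _).trans ?_
    rw [finrank_pi_fintype]
    simp

end Pool.Agent.Y826.CY
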