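import Pool.Agent.W132.AG.Codes
import Pool.Agent.Y826.CY.Tensor

/-! Codes of every dimension. -/

set_option autoImplicit false
set_option linter.all false
set_option linter.overlappingInstances false

open Module FF Pool.Agent.H525R3.FFp

namespace Pool.Agent.Y826.CY

open Pool.Agent.W132.AG

/-- The Reed-Solomon codes. -/
theorem rs_code (k : Type) [Field k] [Fintype k] (lam : ℝ) (d : ℕ) (hd : 1 ≤ d)
    (hdk : d ≤ Fintype.card k) (hlam : 2 * d ≤ lam * Fintype.card k) :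
    ∃ (X : Type) (_ : Fintype X) (_ : Nonempty X) (L G : Submodule k (X → k)),
      (∀ f ∈ L, ∀ g ∈ L, f * g ∈ G) ∧ (∀ x y : X, x ≠ y → ∃ g ∈ G, g x = 0 ∧ g y ≠ 0) ∧
      (∀ g ∈ G, g ≠ 0 → (Nat.card {x : X // g x = 0} : ℝ) ≤ lam * Fintype.card X) ∧
      finrank k G ≤ 2 * d ∧ d ≤ finrank k L := by
  classical
  have hkpos : (0 : ℝ) < Fintype.card k := by exact_mod_cast Fintype.card_pos
  obtain ⟨L', G', h1, h2, h3, h4, h5⟩ := tensor (k := k) (X := Unit) ⊤ ⊤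
    (fun _ _ _ _ => Submodule.mem_top) (fun x y h => absurd (Subsingleton.elim x y) h)
    (fun x => ⟨1, Submodule.mem_top, one_ne_zero⟩) 0
    (by
      intro g _ hg
      have : IsEmpty {x : Unit // g x = 0} := by
        constructor
        rintro ⟨x, hx⟩
        exact hg (funext fun y => by rw [Subsingleton.elim y x, hx]; rfl)
      rw [Nat.card_of_isEmpty]
      simp) d hd hdk
  refine ⟨Unit × k, inferInstance, inferInstance, L', G', h1, h2, ?_, ?_, ?_⟩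
  · intro g hg hg0
    refine (h3 g hg hg0).trans ?_
    apply mul_le_mul_of_nonneg_right _ (by positivity)
    rw [zero_add, div_le_iff₀ hkpos]
    exact hlam
  · refine h5.trans ?_
    rw [finrank_top, finrank_fintype_fun_eq_card]
    simp
  · rw [h4, finrank_top, finrank_fintype_fun_eq_card]
    simp

/-- Codes of every large dimension. -/
theorem ag_code (k : Type) [Field k] [Fintype k] [CharP k 2] (e : ℕ) (he : 5 ≤ e)
    (hk : Fintype.card k = 2 ^ e * 2 ^ e) (lam : ℝ) (hlam0 : 0 < lam) (hlam1 : lam < 1)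
    (hlam : 26 ≤ lam * 2 ^ e) (d : ℕ) (hd : 2 ^ e + 2 ≤ d) :
    ∃ (X : Type) (_ : Fintype X) (_ : Nonempty X) (L G : Submodule k (X → k)),
      (∀ f ∈ L, ∀ g ∈ L, f * g ∈ G) ∧ (∀ x y : X, x ≠ y → ∃ g ∈ G, g x = 0 ∧ g y ≠ 0) ∧
      (∀ g ∈ G, g ≠ 0 → (Nat.card {x : X // g x = 0} : ℝ) ≤ lam * Fintype.card X) ∧
      finrank k G ≤ 16 * d ∧ d ≤ finrank k L := by
  classical
  have h32 : 32 ≤ 2 ^ e := by
    calc 32 = 2 ^ 5 := by norm_num
      _ ≤ 2 ^ e := Nat.pow_le_pow_right (by norm_num) he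
  -- the level
  obtain ⟨m, hm1, hm2⟩ : ∃ m, 2 ^ e * (2 ^ e) ^ m + 2 ≤ d ∧ d < 2 ^ e * (2 ^ e) ^ (m + 1) + 2 := by
    have hex : ∃ m, d < 2 ^ e * (2 ^ e) ^ m + 2 := by
      refine ⟨d, ?_⟩
      have h1 : d < (2 ^ e) ^ d := Nat.lt_pow_self (by omega)
      have h2 : (2 ^ e) ^ d ≤ 2 ^ e * (2 ^ e) ^ d := Nat.le_mul_of_pos_left _ (by positivity)
      omega
    have h3 := Nat.find_spec hex
    have h4 := fun m hm => Nat.find_min hex (m := m) hm
    generalize Nat.find hex = M at h3 h4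
    rcases M with _ | m
    · simp at h3
      omega
    · exact ⟨m, by have := h4 m (by omega); omega, h3⟩
  obtain ⟨F, i1, i2, i3, hphi, A, hA, hA2⟩ := tower k hk m
  set Γ : ℕ := 2 ^ e * (2 ^ e) ^ m with hΓ
  have hΓ2 : 2 ^ e * (2 ^ e) ^ (m + 1) = 2 ^ e * Γ := by rw [hΓ, pow_succ]; ring
  rw [hΓ2] at hm2
  have hΓpos : 1 ≤ Γ := Nat.one_le_iff_ne_zero.2 (by positivity)
  have hAcard : A.card + Γ = 2 ^ e * Γ := by
    rw [hA, hΓ, ← add_mul, Nat.sub_add_cancel (Nat.le_mul_of_pos_left _ (by positivity))]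
    ring
  have hA32 : 32 * Γ ≤ 2 ^ e * Γ := Nat.mul_le_mul_right _ h32
  obtain ⟨X, j1, j2, L, G, hLG, hsep, hz, hG, hL, hX⟩ := codes_aux (k := k) (F := F) (γ := Γ)
    (by intro D; have := hphi D; rw [hΓ]; push_cast; exact this) A hA2 (by omega)
  have hq : (32 : ℝ) ≤ 2 ^ e := by exact_mod_cast h32
  have hXr : ((2 : ℝ) ^ e - 10) * Γ ≤ Fintype.card X := by
    have h1 : 2 ^ e * Γ ≤ Fintype.card X + (4 * Γ + 4) + 1 + Γ := by omega
    have h2 : (2 : ℝ) ^ e * Γ ≤ Fintype.card X + (4 * Γ + 4) + 1 + Γ := by exact_mod_cast h1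
    have h3 : (1 : ℝ) ≤ Γ := by exact_mod_cast hΓpos
    linarith
  have hz' : ∀ g ∈ G, g ≠ 0 → (Nat.card {x : X // g x = 0} : ℝ) ≤ (lam / 2) * Fintype.card X := by
    intro g hg hg0
    have h1 : ((Nat.card {x : X // g x = 0} : ℕ) : ℝ) ≤ ((4 * Γ + 4 : ℕ) : ℝ) := by
      exact_mod_cast hz g hg hg0
    have h3 : (1 : ℝ) ≤ Γ := by exact_mod_cast hΓpos
    have h4 : lam * (((2 : ℝ) ^ e - 10) * Γ) ≤ lam * Fintype.card X :=
      mul_le_mul_of_nonneg_left hXr hlam0.le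
    have h16 : 16 ≤ lam * (2 ^ e - 10) := by linarith
    have h5 : 16 * (Γ : ℝ) ≤ lam * (2 ^ e - 10) * Γ := mul_le_mul_of_nonneg_right h16 (by positivity)
    push_cast at h1
    linarith
  have hone : ∀ x : X, ∃ g ∈ G, g x ≠ 0 := by
    intro x
    obtain ⟨y, hy⟩ : ∃ y : X, y ≠ x := by
      apply Fintype.exists_ne_of_one_lt_card
      omega
    obtain ⟨g, hg, _, h⟩ := hsep y x hy
    exact ⟨g, hg, h⟩
  -- the number of copies
  obtain ⟨t, ht1, ht2⟩ : ∃ t, d ≤ t * (Γ + 2) ∧ t * (Γ + 2) < d + (Γ + 2) := by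
    refine ⟨(d + (Γ + 1)) / (Γ + 2), ?_, ?_⟩
    · have h1 := Nat.div_add_mod (d + (Γ + 1)) (Γ + 2)
      have h2 := Nat.mod_lt (d + (Γ + 1)) (show 0 < Γ + 2 by omega)
      rw [mul_comm] at h1
      omega
    · have h1 := Nat.div_mul_le_self (d + (Γ + 1)) (Γ + 2)
      omega
  have htpos : 1 ≤ t := by
    rcases Nat.eq_zero_or_pos t with h | h
    · rw [h] at ht1; omega
    · exact h
  have hte : t ≤ 2 ^ e := by
    by_contra hc
    push Not at hc
    have h1 : (2 ^ e + 1) * (Γ + 2) ≤ t * (Γ + 2) := Nat.mul_le_mul_right _ hc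
    have h2 : (2 ^ e + 1) * (Γ + 2) = 2 ^ e * Γ + 2 * 2 ^ e + (Γ + 2) := by ring
    omega
  have htk : t ≤ Fintype.card k := by
    rw [hk]
    exact hte.trans (Nat.le_mul_of_pos_left _ (by positivity))
  obtain ⟨L', G', h1, h2, h3, h4, h5⟩ := tensor L G hLG hsep hone (lam / 2) hz' t htpos htk
  refine ⟨X × k, inferInstance, inferInstance, L', G', h1, h2, ?_, ?_, ?_⟩
  · intro g hg hg0
    refine (h3 g hg hg0).trans ?_
    apply mul_le_mul_of_nonneg_right _ (by positivity)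
    have hter : (t : ℝ) ≤ 2 ^ e := by exact_mod_cast hte
    have hpos : (0 : ℝ) < 2 ^ e := by positivity
    have h6 : 2 * (t : ℝ) / Fintype.card k ≤ lam / 2 := by
      rw [hk]
      push_cast
      rw [div_le_iff₀ (by positivity)]
      nlinarith
    linarith
  · refine h5.trans ?_
    calc 2 * t * finrank k G ≤ 2 * t * (4 * Γ + 5) := Nat.mul_le_mul_left _ hG
      _ ≤ 8 * (t * (Γ + 2)) := by nlinarith
      _ ≤ 16 * d := by omega
  · rw [h4]
    exact ht1.trans (Nat.mul_le_mul_left _ hL)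

end Pool.Agent.Y826.CY
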