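import Pool.Agent.W132.Cay.Inv

/-! The complete complex over `F_2^n`. -/

set_option autoImplicit false
set_option linter.all false

namespace Pool.Agent.Y826.CY

open Pool.Agent.W12.Cay Pool.Agent.W132.Cay Finset

theorem lamLe_top {W : Type} [Fintype W] (lam : ℝ) (hW : 1 < Fintype.card W)
    (h : 1 ≤ lam * ((Fintype.card W : ℝ) - 1)) : LamLe (⊤ : SimpleGraph W) lam := by
  classical
  intro μ f hf hμ
  obtain ⟨v, w, hvw⟩ : ∃ v w, f v ≠ f w := by
    by_contra hc
    push Not at hc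
    obtain ⟨v0⟩ : Nonempty W := Fintype.card_pos_iff.mp (by omega)
    exact hf ⟨f v0, fun v => hc v v0⟩
  have hw : ∀ v, walk (⊤ : SimpleGraph W) f v = ((∑ w, f w) - f v) / ((Fintype.card W : ℝ) - 1) := by
    intro v
    unfold walk
    have h1 : ∀ g : W → ℝ, (∑ w, @ite ℝ ((⊤ : SimpleGraph W).Adj v w) (Classical.propDecidable _)
        (g w) 0) = (∑ w, g w) - g v := by
      intro g
      have h9 : ∀ w, (@ite ℝ ((⊤ : SimpleGraph W).Adj v w) (Classical.propDecidable _)
          (g w) 0) = g w - (if v = w then g w else 0) := by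
        intro w
        by_cases hvw : v = w
        · rw [if_pos hvw, if_neg (fun h : (⊤ : SimpleGraph W).Adj v w => h hvw), sub_self]
        · rw [if_neg hvw, if_pos (show (⊤ : SimpleGraph W).Adj v w from hvw), sub_zero]
      rw [Finset.sum_congr rfl fun w _ => h9 w, Finset.sum_sub_distrib, Finset.sum_ite_eq,
        if_pos (Finset.mem_univ v)]
    rw [h1 f, h1 fun _ => 1]
    simp
  have hpos : (0 : ℝ) < (Fintype.card W : ℝ) - 1 := by
    have : (1 : ℝ) < Fintype.card W := by exact_mod_cast hW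
    linarith
  have h1 := hμ v
  have h2 := hμ w
  rw [hw, div_eq_iff hpos.ne'] at h1 h2
  have h3 : (f v - f w) * (μ * ((Fintype.card W : ℝ) - 1) + 1) = 0 := by linarith
  have h4 : μ * ((Fintype.card W : ℝ) - 1) + 1 = 0 :=
    (mul_eq_zero.mp h3).resolve_left (sub_ne_zero.mpr hvw)
  have h5 : |μ| * ((Fintype.card W : ℝ) - 1) = 1 := by
    have h6 : |μ| * ((Fintype.card W : ℝ) - 1) = |μ * ((Fintype.card W : ℝ) - 1)| := by
      rw [abs_mul, abs_of_pos hpos]
    rw [h6, show μ * ((Fintype.card W : ℝ) - 1) = -1 by linarith]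
    simp
  by_contra hc
  push Not at hc
  have h6 := mul_lt_mul_of_pos_right hc hpos
  linarith

theorem three_le (n : ℕ) (lam : ℝ) (h0 : 0 < lam) (hlam : lam < 1)
    (h : 1 ≤ lam * ((2 : ℝ) ^ n - 2)) : 2 ≤ n := by
  by_contra hn
  have h3 : n = 0 ∨ n = 1 := by omega
  rcases h3 with rfl | rfl
  · norm_num at h; linarith
  · norm_num at h

theorem complete (n : ℕ) (lam : ℝ) (h0 : 0 < lam) (hlam : lam < 1)
    (h : 1 ≤ lam * ((2 : ℝ) ^ n - 2)) :
    ∃ (Y : Complex2 (Fin n → ZMod 2)) (S : Finset (Fin n → ZMod 2)),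
      IsCayley Y S ∧ TriInvariant Y ∧ Y.IsLocalSpectralExpander lam ∧ S.card ≤ 2 ^ n := by
  classical
  have hn := three_le n lam h0 hlam h
  have h4 : 2 ^ 2 ≤ 2 ^ n := Nat.pow_le_pow_right (by norm_num) hn
  have hcard : Fintype.card {v : Fin n → ZMod 2 // v ≠ 0} = 2 ^ n - 1 := by
    rw [Fintype.card_subtype_compl, Fintype.card_fun, ZMod.card, Fintype.card_fin]
    simp
  have hcast : ((2 ^ n - 1 : ℕ) : ℝ) = (2 : ℝ) ^ n - 1 := by
    rw [Nat.cast_sub (by omega)]
    push_cast
    ring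
  obtain ⟨Y, S, h1, h2, h3, h5⟩ := exists_complex' (P := {v : Fin n → ZMod 2 // v ≠ 0})
    (fun v => v.1) ⊤ Subtype.val_injective (fun a => a.2)
    (by
      rintro a a' haa
      have hne : a.1 + a'.1 ≠ 0 := by
        intro h6
        exact haa (Subtype.ext (by
          have h7 : a.1 = -a'.1 := eq_neg_of_add_eq_zero_left h6
          have h8 : -a'.1 = a'.1 := neg_eq_of_add_eq_zero_left (dbl a'.1)
          rw [h7, h8]))
      refine ⟨⟨a.1 + a'.1, hne⟩, rfl, ?_⟩
      intro h6
      have h7 : a.1 = a.1 + a'.1 := congrArg Subtype.val h6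
      exact a'.2 (left_eq_add.mp h7))
    (by
      rw [eq_top_iff]
      intro x _
      by_cases hx : x = 0
      · rw [hx]; exact AddSubgroup.zero_mem _
      · exact AddSubgroup.subset_closure ⟨⟨x, hx⟩, rfl⟩)
    lam (lamLe_top lam (by rw [hcard]; omega) (by
      rw [hcard, hcast]
      linarith))
    (by
      intro a
      obtain ⟨b, hb⟩ := Fintype.exists_ne_of_one_lt_card
        (show 1 < Fintype.card {v : Fin n → ZMod 2 // v ≠ 0} by rw [hcard]; omega) a
      exact ⟨b, hb.symm⟩)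
  exact ⟨Y, S, h1, h2, h3, h5.trans (by rw [hcard]; omega)⟩

end Pool.Agent.Y826.CY
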