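import Pool.Agent.Y826.CY.Proj
import Pool.Agent.W132.Cay.Inv

/-!
# Codes to Cayley complexes in all small dimensions

The construction of `Pool.Agent.W12.Cay.code_to_complex` (helper12) and
`Pool.Agent.W132.Cay.code_to_complex'` (helper132), followed by a generic projection.
-/

set_option autoImplicit false
set_option linter.all false

namespace Pool.Agent.Y826.CY

open Pool.Agent.W12.Cay Pool.Agent.W132.Cay Finset

theorem code_all (k : Type) [Field k] [Fintype k] [CharP k 2] (hQ : 4 ≤ Fintype.card k)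
    {X : Type} [Fintype X] [Nonempty X] (L G : Submodule k (X → k))
    (hLG : ∀ f ∈ L, ∀ g ∈ L, f * g ∈ G)
    (hsep : ∀ x y : X, x ≠ y → ∃ g ∈ G, g x = 0 ∧ g y ≠ 0) (lam : ℝ)
    (hz : ∀ g ∈ G, g ≠ 0 → (Nat.card {x : X // g x = 0} : ℝ) ≤ lam * Fintype.card X)
    (nn : ℕ) (hnL : nn ≤ 2 ^ Module.finrank k L)
    (hnG : Fintype.card k ^ (Module.finrank k G + 1) * Fintype.card k ^ (Module.finrank k G + 1) +
      Fintype.card k ^ (Module.finrank k G + 1) + 1 < 2 ^ (nn + 1)) :
    ∃ (Y : Complex2 (Fin nn → ZMod 2)) (S : Finset (Fin nn → ZMod 2)),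
      IsCayley Y S ∧ TriInvariant Y ∧
      Y.IsLocalSpectralExpander (max lam (1 / ((Fintype.card k : ℝ) - 2))) ∧
      S.card ≤ Fintype.card k ^ (Module.finrank k G + 1) := by
  classical
  have hfV : Finite (Module.Dual k (Aff G)) := Module.finite_of_finite k
  let _ : Fintype (Module.Dual k (Aff G)) := Fintype.ofFinite _
  let _ : Fintype (Module.Dual k G) := Fintype.ofFinite _
  have h2V : ∀ v : Module.Dual k (Aff G), 2 • v = 0 := by
    intro v
    rw [two_nsmul, ← two_smul k v, CharTwo.two_eq_zero, zero_smul]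
  let _ : Module (ZMod 2) (Module.Dual k (Aff G)) := AddCommGroup.zmodModule h2V
  have : Module.Finite (ZMod 2) (Module.Dual k (Aff G)) := Module.Finite.of_finite
  let e := (Module.finBasis (ZMod 2) (Module.Dual k (Aff G))).equivFun
  let n := Module.finrank (ZMod 2) (Module.Dual k (Aff G))
  let p : Kn k × Module.Dual k G → (Fin n → ZMod 2) := fun a => e (a.1.1 • vv G a.2)
  have hone : ∀ (a : k) (M : Module.Dual k G), (a • vv G M) ⟨_, one_mem G⟩ = a := by
    intro a M
    simp [vv_apply]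
  have hinj : Function.Injective p := by
    rintro ⟨a, M⟩ ⟨a', M'⟩ h
    have h1 : a.1 • vv G M = a'.1 • vv G M' := e.injective h
    have h2 : a.1 = a'.1 := by
      rw [← hone a.1 M, h1, hone]
    have h3 : M = M' := by
      refine LinearMap.ext fun g => ?_
      have h4 := LinearMap.congr_fun h1 ⟨_, coord_mem G g⟩
      simp only [LinearMap.smul_apply, vv_apply, smul_eq_mul, h2] at h4
      exact mul_left_cancel₀ a'.2 h4
    rw [h3, Subtype.ext h2]
  have h0 : ∀ a, p a ≠ 0 := by
    intro a h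
    have h1 : a.1.1 • vv G a.2 = 0 := by
      have := (LinearEquiv.map_eq_zero_iff e).mp h
      exact this
    have h2 := hone a.1.1 a.2
    rw [h1] at h2
    exact a.1.2 h2.symm
  have hK : ∀ a a', (AA G).Adj a a' → ∃ a'', p a + p a' = p a'' ∧ (AA G).Adj a a'' := by
    rintro ⟨α, M⟩ ⟨α', M'⟩ ⟨h1, x, t, h2⟩
    simp only at h1 h2
    have hM' : M' = M + t • ev G x := by rw [← h2]; abel
    have hne : α.1 + α'.1 ≠ 0 := by
      intro h
      have h3 : α.1 = α'.1 := by
        have := CharTwo.add_eq_zero.mp h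
        exact this
      exact h1 (Subtype.ext h3)
    refine ⟨(⟨α.1 + α'.1, hne⟩, M + (α'.1 * t / (α.1 + α'.1)) • ev G x), ?_, ?_⟩
    · show e (α.1 • vv G M) + e (α'.1 • vv G M') = e ((α.1 + α'.1) • vv G _)
      rw [← map_add]
      congr 1
      rw [hM', vv_line, vv_line, smul_add, smul_add, smul_smul, smul_smul,
        mul_div_cancel₀ _ hne, add_smul, add_assoc]
    · refine ⟨?_, x, α'.1 * t / (α.1 + α'.1), by simp only [add_sub_cancel_left]⟩
      intro h
      have h3 : α.1 = α.1 + α'.1 := congrArg Subtype.val h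
      exact α'.2 (left_eq_add.mp h3)
  have hgen : AddSubgroup.closure (Set.range p) = ⊤ := by
    have h1 : Set.range p = (e.toAddEquiv.toAddMonoidHom) ''
        (Set.range fun a : Kn k × Module.Dual k G => a.1.1 • vv G a.2) := by
      rw [← Set.range_comp]
      rfl
    rw [h1, ← AddMonoidHom.map_closure, closure_vv]
    exact AddSubgroup.map_top_of_surjective _ e.surjective
  have hcK : Fintype.card (Kn k) = Fintype.card k - 1 := card_Kn
  have hlam : LamLe (AA G) (max lam (1 / ((Fintype.card k : ℝ) - 2))) := by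
    refine lamLe_prod (AA G) (BB G) ?_ (by omega) ?_ ?_ _ ?_ ?_
    · intro a a'
      rw [mem_BB]
      rfl
    · exact ⟨0, Finset.mem_insert_self _ _⟩
    · intro δ hδ
      rw [mem_BB] at hδ ⊢
      obtain ⟨x, t, rfl⟩ := hδ
      exact ⟨x, -t, (neg_smul_ev G _ _).symm⟩
    · refine le_trans (le_of_eq ?_) (le_max_right _ _)
      rw [hcK, Nat.cast_sub (by omega)]
      push_cast
      congr 1
      ring
    · intro ψ hψ
      exact char_bound G hQ hsep lam hz ψ hψ
  have hN : ∀ a, ∃ b, (AA G).Adj a b := by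
    rintro ⟨α, M⟩
    have h1 : 2 ≤ Fintype.card (Kn k) := by omega
    obtain ⟨β, hβ⟩ := Fintype.exists_ne_of_one_lt_card (by omega) α
    obtain ⟨x⟩ := ‹Nonempty X›
    exact ⟨(β, M), hβ.symm, x, 0, by simp⟩
  have hcW : Fintype.card (Module.Dual k G) = Fintype.card k ^ Module.finrank k G := by
    rw [Module.card_eq_pow_finrank (K := k), Subspace.dual_finrank_eq]
  have hcP : Fintype.card (Kn k × Module.Dual k G) ≤ Fintype.card k ^ (Module.finrank k G + 1) := by
    rw [Fintype.card_prod, hcK, hcW, pow_succ, mul_comm]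
    exact Nat.mul_le_mul_left _ (Nat.sub_le _ _)
  have hdim : 2 ^ Module.finrank k L ≤ n := by
    refine (dim_le G L hLG).trans ?_
    have h4 : Fintype.card (Module.Dual k (Aff G)) =
        Fintype.card k ^ Module.finrank k (Module.Dual k (Aff G)) :=
      Module.card_eq_pow_finrank (K := k)
    have h5 : Fintype.card (Module.Dual k (Aff G)) = 2 ^ n := by
      have h6 := Module.card_eq_pow_finrank (K := ZMod 2) (V := Module.Dual k (Aff G))
      rwa [ZMod.card] at h6
    rw [h5] at h4
    have h6 : 2 ^ Module.finrank k (Module.Dual k (Aff G)) ≤ 2 ^ n := by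
      rw [h4]
      exact Nat.pow_le_pow_left (by omega) _
    exact (Nat.pow_le_pow_iff_right (by norm_num)).mp h6
  obtain ⟨d, hd⟩ : ∃ d, n = nn + d := ⟨n - nn, by omega⟩
  have hcc : Fintype.card (Kn k × Module.Dual k G) * Fintype.card (Kn k × Module.Dual k G) +
      Fintype.card (Kn k × Module.Dual k G) + 1 < 2 ^ (nn + 1) := by
    refine lt_of_le_of_lt ?_ hnG
    have h7 := Nat.mul_le_mul hcP hcP
    omega
  have key : ∀ (m : ℕ) (p : Kn k × Module.Dual k G → (Fin m → ZMod 2)), m = nn + d →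
      Function.Injective p → (∀ a, p a ≠ 0) →
      (∀ a a', (AA G).Adj a a' → ∃ a'', p a + p a' = p a'' ∧ (AA G).Adj a a'') →
      AddSubgroup.closure (Set.range p) = ⊤ →
      ∃ p' : Kn k × Module.Dual k G → (Fin nn → ZMod 2), Function.Injective p' ∧
        (∀ a, p' a ≠ 0) ∧
        (∀ a a', (AA G).Adj a a' → ∃ a'', p' a + p' a' = p' a'' ∧ (AA G).Adj a a'') ∧
        AddSubgroup.closure (Set.range p') = ⊤ := by
    intro m p hm h1 h2 h3 h4
    subst hm
    exact proj (AA G) nn hcc d p h1 h2 h3 h4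
  obtain ⟨p', h1', h2', h3', h4'⟩ := key n p hd hinj h0 hK hgen
  obtain ⟨Y, S, h1, hti, h2, h3⟩ := exists_complex' p' (AA G) h1' h2' h3' h4' _ hlam hN
  exact ⟨Y, S, h1, hti, h2, h3.trans hcP⟩

end Pool.Agent.Y826.CY
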