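import Pool.Agent.Y826.CY.Codes
import Pool.Agent.Y826.CY.Compl
import Pool.Agent.Y826.CY.Data

/-! Cayley local spectral expanders over `F_2^n` of polynomial degree, for every `n`. -/

set_option autoImplicit false
set_option linter.all false

open Module Pool.Agent.W132.Cay

namespace Pool.Agent.Y826.CY

theorem two_pow_big (d : ℕ) (hd : 34 ≤ d) : 4 * d * (16 * d + 1) ≤ 2 ^ (d - 1) := by
  induction d, hd using Nat.le_induction with
  | base => norm_num
  | succ d hd ih =>
    have h1 : 2 ^ (d + 1 - 1) = 2 * 2 ^ (d - 1) := by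
      rw [← pow_succ']
      congr 1
      omega
    rw [h1]
    nlinarith

theorem sq_le (x : ℕ) (hx : 2 ≤ x) : x * x + x + 1 ≤ 2 * (x * x) := by nlinarith

theorem main (lam : ℝ) (hlam0 : 0 < lam) (hlam1 : lam < 1) (e : ℕ) (he : 5 ≤ e)
    (hlam : 26 ≤ lam * 2 ^ e) (n : ℕ) (hn : 1 ≤ lam * ((2 : ℝ) ^ n - 2)) :
    ∃ (Y : Complex2 (Fin n → ZMod 2)) (S : Finset (Fin n → ZMod 2)),
      IsCayley Y S ∧ TriInvariant Y ∧ Y.IsLocalSpectralExpander lam ∧
        S.card ≤ (2 * n) ^ (34 * e) := by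
  classical
  have hn2 := three_le n lam hlam0 hlam1 hn
  let k := GaloisField 2 (2 * e)
  haveI : Fact (Nat.Prime 2) := ⟨Nat.prime_two⟩
  haveI : Finite k := inferInstanceAs (Finite (GaloisField 2 (2 * e)))
  letI : Fintype k := Fintype.ofFinite k
  have hk : Fintype.card k = 2 ^ e * 2 ^ e := by
    rw [← Nat.card_eq_fintype_card, GaloisField.card 2 (2 * e) (by omega), ← pow_add]
    congr 1
    ring
  haveI : CharP k 2 := inferInstanceAs (CharP (GaloisField 2 (2 * e)) 2)
  have h32 : 32 ≤ 2 ^ e := by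
    calc 32 = 2 ^ 5 := by norm_num
      _ ≤ 2 ^ e := Nat.pow_le_pow_right (by norm_num) he
  have hq : (32 : ℝ) ≤ 2 ^ e := by exact_mod_cast h32
  have hk4 : 4 ≤ Fintype.card k := by rw [hk]; nlinarith
  have hkp : Fintype.card k = 2 ^ (2 * e) := by rw [hk, ← pow_add]; congr 1; ring
  have hkr : (Fintype.card k : ℝ) = 2 ^ e * 2 ^ e := by rw [hk]; push_cast; ring
  have hmax : max lam (1 / ((Fintype.card k : ℝ) - 2)) = lam := by
    apply max_eq_left
    rw [hkr]
    have h2 : (2 : ℝ) ^ e ≤ 2 ^ e * 2 ^ e - 2 := by nlinarith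
    rw [div_le_iff₀ (by linarith)]
    have h3 : lam * 2 ^ e ≤ lam * (2 ^ e * 2 ^ e - 2) := mul_le_mul_of_nonneg_left h2 hlam0.le
    linarith
  set d := Nat.clog 2 n with hd
  have hnd : n ≤ 2 ^ d := Nat.le_pow_clog (by norm_num) n
  have hdn : 2 ^ (d - 1) < n := Nat.pow_pred_clog_lt_self (by norm_num) (by omega)
  have hd1 : 1 ≤ d := Nat.clog_pos (by norm_num) hn2
  have h2d : 2 ^ d ≤ 2 * n := by
    have h1 : 2 ^ d = 2 * 2 ^ (d - 1) := by
      rw [← pow_succ']
      congr 1
      omega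
    omega
  have hfin : ∀ a : ℕ, a ≤ d * (34 * e) → 2 ^ a ≤ (2 * n) ^ (34 * e) := by
    intro a ha
    calc 2 ^ a ≤ 2 ^ (d * (34 * e)) := Nat.pow_le_pow_right (by norm_num) ha
      _ = (2 ^ d) ^ (34 * e) := pow_mul _ _ _
      _ ≤ (2 * n) ^ (34 * e) := Nat.pow_le_pow_left h2d _
  have hde : 1 ≤ e * d := Nat.one_le_iff_ne_zero.mpr (Nat.mul_ne_zero (by omega) (by omega))
  have hed : e ≤ e * d := Nat.le_mul_of_pos_right _ hd1
  rcases Nat.lt_or_ge d (2 ^ e + 2) with hcase | hcase
  · -- Reed-Solomon codes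
    have hdr : (d : ℝ) ≤ 2 ^ e + 1 := by
      have : d ≤ 2 ^ e + 1 := by omega
      exact_mod_cast this
    obtain ⟨X, i1, i2, L, G, hLG, hsep, hz, hG, hL⟩ := rs_code k lam d hd1
      (by rw [hk]; nlinarith)
      (by
        rw [hkr]
        have h3 : 26 * (2 : ℝ) ^ e ≤ lam * 2 ^ e * 2 ^ e :=
          mul_le_mul_of_nonneg_right hlam (by positivity)
        linarith)
    have hx : Fintype.card k ^ (finrank k G + 1) ≤ 2 ^ (2 * e * (2 * d + 1)) := by
      rw [hkp, ← pow_mul]
      exact Nat.pow_le_pow_right (by norm_num) (Nat.mul_le_mul_left _ (by omega))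
    by_cases hc : Fintype.card k ^ (finrank k G + 1) * Fintype.card k ^ (finrank k G + 1) +
      Fintype.card k ^ (finrank k G + 1) + 1 < 2 ^ (n + 1)
    · obtain ⟨Y, S, h1, h2, h3, h4⟩ := code_all k hk4 L G hLG hsep lam hz n
        (hnd.trans (Nat.pow_le_pow_right (by norm_num) hL)) hc
      rw [hmax] at h3
      refine ⟨Y, S, h1, h2, h3, h4.trans (hx.trans (hfin _ ?_))⟩
      nlinarith
    · obtain ⟨Y, S, h1, h2, h3, h4⟩ := complete n lam hlam0 hlam1 hn
      refine ⟨Y, S, h1, h2, h3, h4.trans ?_⟩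
      push Not at hc
      have hx2 : 2 ≤ Fintype.card k ^ (finrank k G + 1) := by
        calc 2 ≤ Fintype.card k := by omega
          _ = Fintype.card k ^ 1 := (pow_one _).symm
          _ ≤ _ := Nat.pow_le_pow_right (by omega) (by omega)
      have h5 := sq_le _ hx2
      have h6 : 2 ^ (n + 1) = 2 * 2 ^ n := pow_succ' _ _
      have h7 : 2 ^ n ≤ Fintype.card k ^ (finrank k G + 1) * Fintype.card k ^ (finrank k G + 1) := by
        omega
      refine h7.trans ((Nat.mul_le_mul hx hx).trans ?_)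
      rw [← pow_add]
      apply hfin
      nlinarith
  · -- algebraic geometric codes
    obtain ⟨X, i1, i2, L, G, hLG, hsep, hz, hG, hL⟩ := ag_code k e he hk lam hlam0 hlam1 hlam d hcase
    have hx : Fintype.card k ^ (finrank k G + 1) ≤ 2 ^ (2 * e * (16 * d + 1)) := by
      rw [hkp, ← pow_mul]
      exact Nat.pow_le_pow_right (by norm_num) (Nat.mul_le_mul_left _ (by omega))
    have hx2 : 2 ≤ Fintype.card k ^ (finrank k G + 1) := by
      calc 2 ≤ Fintype.card k := by omega
        _ = Fintype.card k ^ 1 := (pow_one _).symm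
        _ ≤ _ := Nat.pow_le_pow_right (by omega) (by omega)
    have hed2 : e ≤ d := by
      have : e < 2 ^ e := Nat.lt_two_pow_self
      omega
    have hbig := two_pow_big d (by omega)
    have hc : Fintype.card k ^ (finrank k G + 1) * Fintype.card k ^ (finrank k G + 1) +
      Fintype.card k ^ (finrank k G + 1) + 1 < 2 ^ (n + 1) := by
      refine lt_of_le_of_lt (sq_le _ hx2) ?_
      refine lt_of_le_of_lt (Nat.mul_le_mul_left _ (Nat.mul_le_mul hx hx)) ?_
      rw [← pow_add, ← pow_succ']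
      apply Nat.pow_lt_pow_right (by norm_num)
      have h8 : 4 * e * (16 * d + 1) ≤ 4 * d * (16 * d + 1) := by
        apply Nat.mul_le_mul_right
        omega
      have h9 : 2 * e * (16 * d + 1) + 2 * e * (16 * d + 1) = 4 * e * (16 * d + 1) := by ring
      omega
    obtain ⟨Y, S, h1, h2, h3, h4⟩ := code_all k hk4 L G hLG hsep lam hz n
      (hnd.trans (Nat.pow_le_pow_right (by norm_num) hL)) hc
    rw [hmax] at h3
    refine ⟨Y, S, h1, h2, h3, h4.trans (hx.trans (hfin _ ?_))⟩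
    nlinarith

end Pool.Agent.Y826.CY
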