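import Mathlib

/-! Projecting a symmetric configuration of vectors of `F_2^N` to a smaller dimension. -/

set_option autoImplicit false

namespace Pool.Agent.Y826.CY

open Module

theorem proj_step {P : Type} [Fintype P] (A : SimpleGraph P) (N : ℕ)
    (p : P → (Fin (N + 1) → ZMod 2)) (hinj : Function.Injective p) (h0 : ∀ a, p a ≠ 0)
    (hK : ∀ a a', A.Adj a a' → ∃ a'', p a + p a' = p a'' ∧ A.Adj a a'')
    (hgen : AddSubgroup.closure (Set.range p) = ⊤)
    (hc : Fintype.card P * Fintype.card P + Fintype.card P + 1 < 2 ^ (N + 1)) :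
    ∃ p' : P → (Fin N → ZMod 2), Function.Injective p' ∧ (∀ a, p' a ≠ 0) ∧
      (∀ a a', A.Adj a a' → ∃ a'', p' a + p' a' = p' a'' ∧ A.Adj a a'') ∧
      AddSubgroup.closure (Set.range p') = ⊤ := by
  classical
  -- a vector outside the bad set
  obtain ⟨v, hv⟩ : ∃ v : Fin (N + 1) → ZMod 2,
      v ∉ ((Finset.univ : Finset (P × P)).image fun a => p a.1 - p a.2) ∪
        ((Finset.univ : Finset P).image p) ∪ {0} := by
    by_contra hcon
    push Not at hcon
    have h1 : (Finset.univ : Finset (Fin (N + 1) → ZMod 2)) ⊆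
      ((Finset.univ : Finset (P × P)).image fun a => p a.1 - p a.2) ∪
        ((Finset.univ : Finset P).image p) ∪ {0} := fun v _ => hcon v
    have h2 := Finset.card_le_card h1
    rw [Finset.card_univ, Fintype.card_fun, ZMod.card, Fintype.card_fin] at h2
    have h3 := Finset.card_union_le (((Finset.univ : Finset (P × P)).image fun a => p a.1 - p a.2) ∪
        ((Finset.univ : Finset P).image p)) {0}
    have h4 := Finset.card_union_le ((Finset.univ : Finset (P × P)).image fun a => p a.1 - p a.2)
        ((Finset.univ : Finset P).image p)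
    have h5 : ((Finset.univ : Finset (P × P)).image fun a => p a.1 - p a.2).card ≤
        Fintype.card P * Fintype.card P := by
      refine Finset.card_image_le.trans ?_
      rw [Finset.card_univ, Fintype.card_prod]
    have h6 : ((Finset.univ : Finset P).image p).card ≤ Fintype.card P := by
      refine Finset.card_image_le.trans ?_
      rw [Finset.card_univ]
    rw [Finset.card_singleton] at h3
    omega
  simp only [Finset.mem_union, Finset.mem_image, Finset.mem_univ, true_and, Finset.mem_singleton,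
    not_or, not_exists, Prod.exists] at hv
  obtain ⟨⟨hv1, hv2⟩, hv3⟩ := hv
  let U : Submodule (ZMod 2) (Fin (N + 1) → ZMod 2) := Submodule.span (ZMod 2) {v}
  have hU : finrank (ZMod 2) U = 1 := finrank_span_singleton hv3
  have hq : finrank (ZMod 2) ((Fin (N + 1) → ZMod 2) ⧸ U) = finrank (ZMod 2) (Fin N → ZMod 2) := by
    have h1 := U.finrank_quotient_add_finrank
    rw [hU, finrank_fin_fun] at h1
    rw [finrank_fin_fun]
    omega
  let E : ((Fin (N + 1) → ZMod 2) ⧸ U) ≃ₗ[ZMod 2] (Fin N → ZMod 2) := LinearEquiv.ofFinrankEq _ _ hq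
  let π : (Fin (N + 1) → ZMod 2) →ₗ[ZMod 2] (Fin N → ZMod 2) := E.toLinearMap.comp U.mkQ
  have hker : ∀ x, π x = 0 → x = 0 ∨ x = v := by
    intro x hx
    have h1 : U.mkQ x = 0 := (LinearEquiv.map_eq_zero_iff E).mp hx
    rw [Submodule.mkQ_apply, Submodule.Quotient.mk_eq_zero, Submodule.mem_span_singleton] at h1
    obtain ⟨c, rfl⟩ := h1
    have h2 : ∀ c : ZMod 2, c = 0 ∨ c = 1 := by decide
    rcases h2 c with h | h
    · left; rw [h, zero_smul]
    · right; rw [h, one_smul]
  have hsurj : Function.Surjective π := E.surjective.comp (Submodule.mkQ_surjective U)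
  refine ⟨fun a => π (p a), ?_, ?_, ?_, ?_⟩
  · intro a b hab
    have h1 : π (p a - p b) = 0 := by
      rw [map_sub, sub_eq_zero]; exact hab
    rcases hker _ h1 with h | h
    · exact hinj (sub_eq_zero.mp h)
    · exact absurd h (hv1 a b)
  · intro a ha
    rcases hker _ ha with h | h
    · exact h0 a h
    · exact hv2 a h
  · intro a a' haa
    obtain ⟨a'', h1, h2⟩ := hK a a' haa
    exact ⟨a'', by simp only [← map_add, h1], h2⟩
  · have h1 : Set.range (fun a => π (p a)) = (π.toAddMonoidHom) '' (Set.range p) := by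
      rw [← Set.range_comp]
      rfl
    rw [h1, ← AddMonoidHom.map_closure, hgen]
    exact AddSubgroup.map_top_of_surjective _ hsurj

theorem proj {P : Type} [Fintype P] (A : SimpleGraph P) (n : ℕ)
    (hc : Fintype.card P * Fintype.card P + Fintype.card P + 1 < 2 ^ (n + 1)) (d : ℕ)
    (p : P → (Fin (n + d) → ZMod 2)) (hinj : Function.Injective p) (h0 : ∀ a, p a ≠ 0)
    (hK : ∀ a a', A.Adj a a' → ∃ a'', p a + p a' = p a'' ∧ A.Adj a a'')
    (hgen : AddSubgroup.closure (Set.range p) = ⊤) :
    ∃ p' : P → (Fin n → ZMod 2), Function.Injective p' ∧ (∀ a, p' a ≠ 0) ∧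
      (∀ a a', A.Adj a a' → ∃ a'', p' a + p' a' = p' a'' ∧ A.Adj a a'') ∧
      AddSubgroup.closure (Set.range p') = ⊤ := by
  induction d with
  | zero => exact ⟨p, hinj, h0, hK, hgen⟩
  | succ d ih =>
    have h1 : Fintype.card P * Fintype.card P + Fintype.card P + 1 < 2 ^ (n + d + 1) :=
      hc.trans_le (Nat.pow_le_pow_right (by norm_num) (by omega))
    obtain ⟨p', h2, h3, h4, h5⟩ := proj_step A (n + d) p hinj h0 hK hgen h1
    exact ih p' h2 h3 h4 h5

end Pool.Agent.Y826.CY
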